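import Pool.Agent.helper80.HM.SpecD

/-!
# hm:NRE: the reduction to the half clique language for one length
-/

set_option autoImplicit false

namespace Pool.Agent.HM

open Finset Pool.Agent.helper38.Neg Pool.Agent.helper55.NT
open Pool.Agent.LN (HC)

/-- The negations of the inputs in `S`. -/
theorem NRE_neg {n : ℕ} (S : Finset (Fin n)) :
    Rel (n := n) ∅ S.card S.card {f | ∃ i ∈ S, f = fun x => !(x i)} := by
  classical
  induction S using Finset.induction_on with
  | empty =>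
    refine (Rel.sub (F := ∅) (G := ∅) (Set.empty_subset _)).mono le_rfl ?_ (by simp) (by simp)
    rintro f ⟨i, hi, -⟩
    exact absurd hi (Finset.notMem_empty i)
  | @insert a S ha ih =>
    have h1 : Rel (n := n) ∅ 1 1 {fun x => !(x a)} := by
      have h2 := (Rel.var (n := n) ∅ a).trans' (Rel.not (F := ∅ ∪ ({fun x => x a} : Set (Fn n)))
        (u := fun x => x a) (Or.inr (Set.mem_singleton _)))
      exact h2.mono le_rfl le_rfl (by omega) (by omega)
    refine (h1.union ih).mono le_rfl ?_ ?_ ?_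
    · rintro f ⟨i, hi, rfl⟩
      rcases Finset.mem_insert.1 hi with rfl | hi
      · exact Or.inl rfl
      · exact Or.inr ⟨i, hi, rfl⟩
    · rw [Finset.card_insert_of_notMem ha]
      omega
    · rw [Finset.card_insert_of_notMem ha]
      omega

/-- Literals and constants. -/
theorem NRE_lit (n : ℕ) : Rel (n := n) ∅ (n + 2) n
    {f | (∃ b, ∀ x, f x = b) ∨ (∃ c, ∀ x, f x = x c) ∨ ∃ c, ∀ x, f x = !(x c)} := by
  intro L q hL hF
  have h1 : Rel (n := n) ∅ n n {f | ∃ i ∈ (Finset.univ : Finset (Fin n)), f = fun x => !(x i)} :=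
    (NRE_neg (n := n) Finset.univ).mono le_rfl le_rfl (by simp) (by simp)
  have h2 := (h1.union (Rel.const (n := n) ∅ true)).union (Rel.const (n := n) ∅ false)
  obtain ⟨L', q', g1, g2, g3, g4, g5⟩ := h2 L q hL hF
  refine ⟨L', q', g1, by omega, by omega, g4, ?_⟩
  rintro g (⟨b, hb⟩ | ⟨c, hc⟩ | ⟨c, hc⟩)
  · cases b
    · exact g5 g (Or.inr (funext hb))
    · exact g5 g (Or.inl (Or.inr (funext hb)))
  · exact Or.inr ⟨c, funext hc⟩
  · exact g5 g (Or.inl (Or.inl ⟨c, Finset.mem_univ _, funext hc⟩))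

theorem NRE (hACC : ACC_stmt) (hCPO : CPO_stmt) (hNLI : NLI_stmt) (hNCF : NCF_stmt)
    (hNCB : NCB_stmt) (hNHS : NHS_stmt) : NRE_stmt := by
  intro n w s r C o D o' hD
  obtain ⟨P, Q, φ, hC⟩ := hACC C
  obtain ⟨e⟩ := hNLI.1 n w s
  have hlit := hNLI.2 e P Q φ o
  have hrel : Rel (n := n) ∅ (n + 2 + r) (n + r)
      {fun x => D.val (fun j => nmat e P Q φ o x j) o'} := by
    refine (NRE_lit n).trans' ?_
    refine (hCPO D o' {f | (∃ b, ∀ x, f x = b) ∨ (∃ c, ∀ x, f x = x c) ∨ ∃ c, ∀ x, f x = !(x c)}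
      (fun j x => nmat e P Q φ o x j) (fun j => hlit j)).mono Set.subset_union_right le_rfl le_rfl le_rfl
  obtain ⟨s', hs', C', o'', -, hC'⟩ := hrel.toCircuit
  refine ⟨s', by omega, C', o'', fun x => ?_⟩
  rw [hC']
  have hg : (D.val (fun j => nmat e P Q φ o x j) o' = true) ↔
      Pool.Agent.helper33.Mod.Clique (nM n w s) (nM n w s / 2) (nmat e P Q φ o x) := by
    rw [hD, hNHS]
  rw [hg]
  constructor
  · intro h
    obtain ⟨z, hz1, hz2, hz3⟩ := hNCB e P Q φ o x h
    refine ⟨fun j => z (Fin.castAdd s (Fin.natAdd n j)), ?_⟩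
    have h1 : z = C.val (Fin.append x fun j => z (Fin.castAdd s (Fin.natAdd n j))) := by
      rw [hC]
      refine ⟨fun i => ?_, hz2⟩
      refine Fin.addCases (fun c => ?_) (fun j => ?_) i
      · rw [Fin.append_left, hz1]
      · rw [Fin.append_right]
    rw [← h1]
    exact hz3
  · rintro ⟨y, hy⟩
    obtain ⟨h1, h2⟩ := (hC (Fin.append x y) (C.val (Fin.append x y))).1 rfl
    refine hNCF e P Q φ o x (C.val (Fin.append x y)) (fun c => ?_) h2 hy
    rw [h1, Fin.append_left]

end Pool.Agent.HM
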